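import Pool.Agent.X26.MS.Per

/-!
# Persistent deviations: the frequency
-/

set_option autoImplicit false

namespace Pool.Agent.X26.MS

open Finset Filter Topology
open Pool.Agent.X30.MI (win)

theorem growth (K : ℕ) {ε ε' : ℝ} (hε' : 0 < ε') (h : ε' < ε) :
    ∀ᶠ l : ℝ in atTop, (l ^ K + 2) * Real.exp (-l ^ ε) ≤ 1 / 4 * Real.exp (-l ^ ε') := by
  have hε : 0 < ε := by linarith
  have hA := tendsto_rpow_atTop hε
  have h1 : ∀ᶠ t : ℝ in atTop, t ^ (ε' / ε) ≤ t / 2 := by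
    have hc : 0 < 1 - ε' / ε := by
      rw [sub_pos, div_lt_one hε]
      exact h
    have h2 := (tendsto_rpow_neg_atTop hc).eventually_le_const (show (0 : ℝ) < 1 / 2 by norm_num)
    filter_upwards [h2, eventually_gt_atTop (0 : ℝ)] with t h3 h4
    have e : t ^ (ε' / ε) = t * t ^ (-(1 - ε' / ε)) := by
      nth_rw 2 [← Real.rpow_one t]
      rw [← Real.rpow_add h4]
      congr 1
      ring
    rw [e]
    nlinarith
  have h2 : ∀ᶠ t : ℝ in atTop, 4 * (t ^ ((K : ℝ) / ε) + 2) ≤ Real.exp (t / 2) := by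
    have h3 := (isLittleO_rpow_exp_pos_mul_atTop ((K : ℝ) / ε) (show (0 : ℝ) < 1 / 2 by norm_num)).bound
      (show (0 : ℝ) < 1 / 8 by norm_num)
    have h4 : Tendsto (fun t : ℝ => Real.exp (t / 2)) atTop atTop :=
      Real.tendsto_exp_atTop.comp (tendsto_id.atTop_div_const (by norm_num))
    filter_upwards [h3, h4.eventually_ge_atTop 16, eventually_gt_atTop (0 : ℝ)] with t h5 h6 h7
    rw [Real.norm_eq_abs, Real.norm_eq_abs, abs_of_nonneg (by positivity), abs_of_nonneg (by positivity)] at h5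
    have e : Real.exp (1 / 2 * t) = Real.exp (t / 2) := by congr 1; ring
    rw [e] at h5
    linarith
  filter_upwards [hA.eventually h1, hA.eventually h2, eventually_gt_atTop (0 : ℝ)] with l k1 k2 k3
  have e1 : (l ^ ε) ^ (ε' / ε) = l ^ ε' := by
    rw [← Real.rpow_mul k3.le]
    congr 1
    field_simp
  have e2 : (l ^ ε) ^ ((K : ℝ) / ε) = l ^ K := by
    rw [← Real.rpow_mul k3.le, ← Real.rpow_natCast]
    congr 1
    field_simp
  rw [e1] at k1
  rw [e2] at k2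
  have k4 : Real.exp (l ^ ε / 2) * Real.exp (-l ^ ε) = Real.exp (-(l ^ ε / 2)) := by
    rw [← Real.exp_add]
    congr 1
    ring
  have k5 : Real.exp (-(l ^ ε / 2)) ≤ Real.exp (-l ^ ε') := Real.exp_le_exp.2 (by linarith)
  have k6 : 4 * ((l ^ K + 2) * Real.exp (-l ^ ε)) ≤ Real.exp (l ^ ε / 2) * Real.exp (-l ^ ε) := by
    rw [← mul_assoc]
    exact mul_le_mul_of_nonneg_right k2 (Real.exp_pos _).le
  linarith

theorem growth2 (c : ℝ) {ε' : ℝ} (hε' : 0 < ε') (h : ε' ≤ 1 / 2) :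
    ∀ᶠ X : ℝ in atTop, c ≤ X * Real.exp (-(Real.log X) ^ ε') / 4 := by
  have hA : Tendsto (fun X : ℝ => Real.exp (Real.log X / 2)) atTop atTop :=
    Real.tendsto_exp_atTop.comp (Real.tendsto_log_atTop.atTop_div_const (by norm_num))
  filter_upwards [hA.eventually_ge_atTop (4 * c), Real.tendsto_log_atTop.eventually_ge_atTop 4,
    eventually_gt_atTop (0 : ℝ)] with X h1 h2 h3
  have h4 : (Real.log X) ^ ε' ≤ (Real.log X) ^ (1 / 2 : ℝ) := Real.rpow_le_rpow_of_exponent_le (by linarith) h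
  have h5 : (Real.log X) ^ (1 / 2 : ℝ) ≤ Real.log X / 2 := by
    rw [← Real.sqrt_eq_rpow]
    apply Real.sqrt_le_iff.2
    constructor
    · linarith
    · nlinarith
  have h6 : Real.exp (Real.log X / 2) ≤ X * Real.exp (-(Real.log X) ^ ε') := by
    calc Real.exp (Real.log X / 2) ≤ Real.exp (Real.log X + -(Real.log X) ^ ε') := Real.exp_le_exp.2 (by linarith)
      _ = X * Real.exp (-(Real.log X) ^ ε') := by rw [Real.exp_add, Real.exp_log h3]
  linarith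

open Classical in
/-- from one set to another -/
theorem transfer (P Q : ℕ → Prop) (K n₀ : ℕ) {ε ε' : ℝ} (hε' : 0 < ε') (h2 : ε' ≤ 1 / 2) (hεε : ε' < ε)
    (hPQ : ∀ n, n₀ ≤ n → P n → ∃ p, n ≤ p ∧ p ≤ n + ⌊(Real.log n) ^ K⌋₊ + 1 ∧ Q p)
    (hP : ∃ X₀ : ℝ, ∀ X : ℝ, X₀ ≤ X → X * Real.exp (-(Real.log X) ^ ε') ≤ (((Icc 1 ⌊X⌋₊).filter P).card : ℝ)) :
    ∃ X₀ : ℝ, ∀ X : ℝ, X₀ ≤ X → X * Real.exp (-(Real.log X) ^ ε) ≤ (((Icc 1 ⌊X⌋₊).filter Q).card : ℝ) := by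
  obtain ⟨X₀, hX₀⟩ := hP
  obtain ⟨n₁, hn₁⟩ := pow_le_n K
  set m := max n₀ (max n₁ 2) with hm
  obtain ⟨X₁, hX₁⟩ := eventually_atTop.1 ((Real.tendsto_log_atTop.eventually (growth K hε' hεε)).and
    ((growth2 (m : ℝ) hε' h2).and ((eventually_ge_atTop (2 * X₀)).and ((eventually_ge_atTop (4 : ℝ)).and
      (Real.tendsto_log_atTop.eventually_ge_atTop 1)))))
  refine ⟨X₁, fun X hX => ?_⟩
  obtain ⟨g1, g2, g3, g4, g5⟩ := hX₁ X hX
  have hX0 : 0 < X := by linarith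
  have hbase := hX₀ (X / 2) (by linarith)
  set A := (Icc 1 ⌊X / 2⌋₊).filter P with hA
  set T := (Icc 1 ⌊X⌋₊).filter Q with hT
  set Km := ⌊(Real.log X) ^ K⌋₊ + 1 with hKm
  have hsub : A ⊆ range m ∪ T.biUnion (fun p => Icc (p - Km) p) := by
    intro n hn
    rw [hA, mem_filter, mem_Icc] at hn
    rw [mem_union]
    by_cases hnm : n < m
    · exact Or.inl (mem_range.2 hnm)
    · right
      obtain ⟨p, p1, p2, p3⟩ := hPQ n (by omega) hn.2
      rw [mem_biUnion]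
      have hn1 := hn₁ n (by omega)
      have hnX : (n : ℝ) ≤ X / 2 := (Nat.le_floor_iff (by linarith)).1 hn.1.2
      have hnp : (0 : ℝ) < n := by exact_mod_cast (by omega : 0 < n)
      have hlog0 : 0 ≤ Real.log n := Real.log_natCast_nonneg n
      have hfl : (⌊(Real.log n) ^ K⌋₊ : ℝ) ≤ (Real.log n) ^ K := Nat.floor_le (by positivity)
      have hpX : (p : ℝ) ≤ X := by
        have : (p : ℝ) ≤ n + ⌊(Real.log n) ^ K⌋₊ + 1 := by exact_mod_cast p2
        linarith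
      have hfl2 : ⌊(Real.log n) ^ K⌋₊ ≤ ⌊(Real.log X) ^ K⌋₊ := by
        apply Nat.floor_le_floor
        apply pow_le_pow_left₀ hlog0
        exact Real.log_le_log hnp (by linarith)
      refine ⟨p, ?_, ?_⟩
      · rw [hT, mem_filter, mem_Icc]
        exact ⟨⟨by omega, Nat.le_floor hpX⟩, p3⟩
      · rw [mem_Icc]
        omega
  have hcard : (A.card : ℝ) ≤ m + (Km + 1 : ℕ) * T.card := by
    have h3 : A.card ≤ m + (Km + 1) * T.card := by
      refine (card_le_card hsub).trans ((card_union_le _ _).trans ?_)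
      rw [card_range]
      apply Nat.add_le_add_left
      refine card_biUnion_le.trans ?_
      rw [mul_comm, ← smul_eq_mul]
      apply sum_le_card_nsmul
      intro p _
      rw [Nat.card_Icc]
      omega
    exact_mod_cast h3
  have h3 : X / 2 * Real.exp (-(Real.log X) ^ ε') ≤ (A.card : ℝ) := by
    refine le_trans ?_ hbase
    apply mul_le_mul_of_nonneg_left _ (by linarith)
    apply Real.exp_le_exp.2
    have h4 : Real.log (X / 2) ≤ Real.log X := Real.log_le_log (by linarith) (by linarith)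
    have h5 : 0 ≤ Real.log (X / 2) := Real.log_nonneg (by linarith)
    have := Real.rpow_le_rpow h5 h4 hε'.le
    linarith
  have hKm2 : ((Km + 1 : ℕ) : ℝ) ≤ (Real.log X) ^ K + 2 := by
    have : (⌊(Real.log X) ^ K⌋₊ : ℝ) ≤ (Real.log X) ^ K := Nat.floor_le (by positivity)
    rw [hKm]
    push_cast
    linarith
  have hKm0 : (0 : ℝ) < (Km + 1 : ℕ) := by positivity
  have h6 : (Km + 1 : ℕ) * (X * Real.exp (-(Real.log X) ^ ε)) ≤ (Km + 1 : ℕ) * (T.card : ℝ) := by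
    have h7 : (Km + 1 : ℕ) * (X * Real.exp (-(Real.log X) ^ ε)) ≤ X * (1 / 4 * Real.exp (-(Real.log X) ^ ε')) := by
      calc (Km + 1 : ℕ) * (X * Real.exp (-(Real.log X) ^ ε))
          = X * ((Km + 1 : ℕ) * Real.exp (-(Real.log X) ^ ε)) := by ring
        _ ≤ X * (((Real.log X) ^ K + 2) * Real.exp (-(Real.log X) ^ ε)) := by
            apply mul_le_mul_of_nonneg_left _ hX0.le
            exact mul_le_mul_of_nonneg_right hKm2 (Real.exp_pos _).le
        _ ≤ _ := mul_le_mul_of_nonneg_left g1 hX0.le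
    linarith
  exact le_of_mul_le_mul_left h6 hKm0

open Classical in
/-- **persistent deviations** -/
theorem main (N : ℕ) {ε : ℝ} (hε : 0 < ε) : ∃ δ : ℝ, 0 < δ ∧ ∃ X₀ : ℝ, ∀ X : ℝ, X₀ ≤ X →
    X * Real.exp (-(Real.log X) ^ ε) ≤ (((Icc 1 ⌊X⌋₊).filter (fun p : ℕ => p.Prime ∧ ∀ h : ℕ, 1 ≤ h →
      (h : ℝ) ≤ (Real.log p) ^ N →
        (1 + δ) * h / Real.log p ≤ (((Ico p (p + h)).filter Nat.Prime).card : ℝ))).card : ℝ) ∧
    X * Real.exp (-(Real.log X) ^ ε) ≤ (((Icc 1 ⌊X⌋₊).filter (fun n : ℕ => ∀ h : ℕ, 1 ≤ h →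
      (h : ℝ) ≤ (Real.log n) ^ N →
        (((Ioc n (n + h)).filter Nat.Prime).card : ℝ) ≤ (1 - δ) * h / Real.log n)).card : ℝ) := by
  set ε' := min (ε / 2) (1 / 2) with hε'd
  have hε' : 0 < ε' := lt_min (by linarith) (by norm_num)
  have h2 : ε' ≤ 1 / 2 := min_le_right _ _
  have hεε : ε' < ε := (min_le_left _ _).trans_lt (by linarith)
  obtain ⟨δ₀, hδ₀, X₀, hX₀⟩ := Pool.Agent.X30.MI.main ((N + 2 : ℕ) : ℝ) ε' (by push_cast; linarith [(Nat.cast_nonneg N : (0 : ℝ) ≤ N)]) hε'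
  set δ := min δ₀ 1 with hδd
  have hδ : 0 < δ := lt_min hδ₀ one_pos
  have hδ1 : δ ≤ 1 := min_le_right _ _
  have hδδ : δ ≤ δ₀ := min_le_left _ _
  have he : ((N + 2 : ℕ) : ℝ) - 1 = ((N + 1 : ℕ) : ℝ) := by push_cast; ring
  obtain ⟨n₁, hn₁⟩ := exc N hδ
  obtain ⟨n₂, hn₂⟩ := dfc N hδ hδ1
  obtain ⟨Y₁, hY₁⟩ := transfer (fun n : ℕ => (1 + δ) * (Real.log n) ^ (N + 1) ≤ (win ((N + 2 : ℕ) : ℝ) n : ℝ))
    (fun p : ℕ => p.Prime ∧ ∀ h : ℕ, 1 ≤ h → (h : ℝ) ≤ (Real.log p) ^ N →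
      (1 + δ / 4) * h / Real.log p ≤ (((Ico p (p + h)).filter Nat.Prime).card : ℝ)) (N + 2) n₁ hε' h2 hεε (by
    intro n hn hP
    obtain ⟨p, p1, p2, p3, p4⟩ := hn₁ n hn hP
    exact ⟨p, p1.le, p2, p3, p4⟩) (by
    refine ⟨X₀, fun X hX => (hX₀ X hX).1.trans ?_⟩
    exact Nat.cast_le.2 (card_le_card (by
      intro n hn
      rw [mem_filter] at hn ⊢
      refine ⟨hn.1, le_trans ?_ hn.2⟩
      rw [he, Real.rpow_natCast]
      apply mul_le_mul_of_nonneg_right _ (pow_nonneg (Real.log_natCast_nonneg n) _)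
      linarith)))
  obtain ⟨Y₂, hY₂⟩ := transfer (fun n : ℕ => (win ((N + 2 : ℕ) : ℝ) n : ℝ) ≤ (1 - δ) * (Real.log n) ^ (N + 1))
    (fun n : ℕ => ∀ h : ℕ, 1 ≤ h → (h : ℝ) ≤ (Real.log n) ^ N →
      (((Ioc n (n + h)).filter Nat.Prime).card : ℝ) ≤ (1 - δ / 4) * h / Real.log n) (N + 2) n₂ hε' h2 hεε (by
    intro n hn hP
    obtain ⟨p, p1, p2, p3⟩ := hn₂ n hn hP
    exact ⟨p, p1, by omega, p3⟩) (by
    refine ⟨X₀, fun X hX => (hX₀ X hX).2.trans ?_⟩
    exact Nat.cast_le.2 (card_le_card (by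
      intro n hn
      rw [mem_filter] at hn ⊢
      refine ⟨hn.1, hn.2.trans ?_⟩
      rw [he, Real.rpow_natCast]
      apply mul_le_mul_of_nonneg_right _ (pow_nonneg (Real.log_natCast_nonneg n) _)
      linarith)))
  refine ⟨δ / 4, by linarith, max Y₁ Y₂, fun X hX => ⟨?_, ?_⟩⟩
  · have h := hY₁ X ((le_max_left _ _).trans hX)
    convert h
  · have h := hY₂ X ((le_max_right _ _).trans hX)
    convert h

end Pool.Agent.X26.MS
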