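import Pool.Agent.X26.MS.Sun

/-!
# Persistent deviations: one window
-/

set_option autoImplicit false

namespace Pool.Agent.X26.MS

open Finset Filter Topology
open Pool.Agent.X30.MI (win)

theorem win_eq (k n : ℕ) : win (k : ℝ) n = pr n ⌊(Real.log n) ^ k⌋₊ := by
  unfold win pr
  rw [Real.rpow_natCast, add_comm (n : ℝ), Nat.floor_add_natCast (pow_nonneg (Real.log_natCast_nonneg n) _),
    add_comm _ n]

/-- the primes in `[p, p + h)` -/
theorem pr_Ico (x h : ℕ) : ((Ico (x + 1) (x + 1 + h)).filter Nat.Prime).card = pr x h := by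
  unfold pr
  congr 1
  ext u
  simp only [mem_filter, mem_Ico, mem_Ioc]
  constructor
  · rintro ⟨⟨a, b⟩, c⟩
    exact ⟨⟨by omega, by omega⟩, c⟩
  · rintro ⟨⟨a, b⟩, c⟩
    exact ⟨⟨by omega, by omega⟩, c⟩

theorem log_ub {n p : ℕ} (hn : 1 ≤ n) (h : p ≤ 2 * n) (hp : 1 ≤ p) : Real.log p ≤ Real.log n + 1 := by
  have h1 : (p : ℝ) ≤ 2 * n := by exact_mod_cast h
  have hn0 : (0 : ℝ) < n := by exact_mod_cast hn
  have hp0 : (0 : ℝ) < p := by exact_mod_cast hp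
  have h2 := Real.log_le_log hp0 h1
  rw [Real.log_mul (by norm_num) hn0.ne'] at h2
  have h3 : Real.log 2 ≤ 1 := by
    have := Real.log_two_lt_d9
    linarith
  linarith

theorem pow_le_n (k : ℕ) : ∃ n₀ : ℕ, ∀ n : ℕ, n₀ ≤ n → (Real.log n) ^ k + 1 ≤ (n : ℝ) := by
  have h := Real.isLittleO_pow_log_id_atTop (n := k)
  have h1 : ∀ᶠ x : ℝ in atTop, (Real.log x) ^ k + 1 ≤ x := by
    have h2 := h.bound (show (0 : ℝ) < 1 / 2 by norm_num)
    filter_upwards [h2, eventually_ge_atTop (2 : ℝ)] with x h3 h4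
    rw [id, Real.norm_eq_abs, Real.norm_eq_abs, abs_of_nonneg (by linarith : (0 : ℝ) ≤ x)] at h3
    have := le_abs_self ((Real.log x) ^ k)
    linarith
  obtain ⟨n₀, hn₀⟩ := eventually_atTop.1 (tendsto_natCast_atTop_atTop.eventually h1)
  exact ⟨n₀, hn₀⟩

theorem logs (c : ℝ) : ∃ n₀ : ℕ, ∀ n : ℕ, n₀ ≤ n → c ≤ Real.log n := by
  obtain ⟨n₀, hn₀⟩ := eventually_atTop.1 ((Real.tendsto_log_atTop.comp tendsto_natCast_atTop_atTop).eventually_ge_atTop c)
  exact ⟨n₀, hn₀⟩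

/-- an excess in one window gives a persistent excess -/
theorem exc (N : ℕ) {δ : ℝ} (hδ : 0 < δ) : ∃ n₀ : ℕ, ∀ n : ℕ, n₀ ≤ n →
    (1 + δ) * (Real.log n) ^ (N + 1) ≤ (win ((N + 2 : ℕ) : ℝ) n : ℝ) →
    ∃ p : ℕ, n < p ∧ p ≤ n + ⌊(Real.log n) ^ (N + 2)⌋₊ + 1 ∧ p.Prime ∧ ∀ h : ℕ, 1 ≤ h →
      (h : ℝ) ≤ (Real.log p) ^ N → (1 + δ / 4) * h / Real.log p ≤ (((Ico p (p + h)).filter Nat.Prime).card : ℝ) := by
  obtain ⟨n₁, h1⟩ := pow_le_n (N + 2)
  obtain ⟨n₂, h2⟩ := logs (max 1 (2 ^ (N + 1) / δ + 1))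
  refine ⟨max (max n₁ n₂) 3, fun n hn hw => ?_⟩
  have k1 := h1 n (by omega)
  have k2 := h2 n (by omega)
  set L := Real.log n with hL
  have hL1 : 1 ≤ L := (le_max_left _ _).trans k2
  have hL2 : 2 ^ (N + 1) / δ + 1 ≤ L := (le_max_right _ _).trans k2
  have hL0 : 0 < L := by linarith
  rw [win_eq] at hw
  set M := ⌊L ^ (N + 2)⌋₊ with hM
  set H := ⌊(L + 1) ^ N⌋₊ with hH
  have hMu : (M : ℝ) ≤ L ^ (N + 2) := Nat.floor_le (by positivity)
  have hHu : (H : ℝ) ≤ (L + 1) ^ N := Nat.floor_le (by positivity)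
  have hH2 : (L + 1) ^ N ≤ 2 ^ N * L ^ N := by
    rw [← mul_pow]
    exact pow_le_pow_left₀ (by positivity) (by linarith) _
  have hH3 : (L + 1) ^ N < δ / 2 * L ^ (N + 1) := by
    refine hH2.trans_lt ?_
    have h3 : 2 ^ (N + 1) < L * δ := by
      rw [← div_lt_iff₀ hδ]
      linarith
    have h4 : 0 < L ^ N := by positivity
    rw [pow_succ] at h3
    rw [pow_succ]
    nlinarith
  have hHM : H ≤ M := by
    by_contra hcon
    have h3 : (M : ℝ) + 1 ≤ H := by exact_mod_cast (not_le.1 hcon)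
    have h4 := Nat.lt_floor_add_one (L ^ (N + 2))
    rw [← hM] at h4
    have h5 : pr n M ≤ M := pr_le _ _
    have h6 : (pr n M : ℝ) ≤ M := by exact_mod_cast h5
    have h7 : 0 < L ^ (N + 1) := by positivity
    have h8 : L ^ (N + 1) ≤ L ^ (N + 2) := pow_le_pow_right₀ hL1 (by omega)
    nlinarith
  have hkey : (1 + δ / 2) / L * M + H < pr n M := by
    refine lt_of_lt_of_le ?_ hw
    have h3 : (1 + δ / 2) / L * M ≤ (1 + δ / 2) * L ^ (N + 1) := by
      calc (1 + δ / 2) / L * M ≤ (1 + δ / 2) / L * L ^ (N + 2) := mul_le_mul_of_nonneg_left hMu (by positivity)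
        _ = _ := by field_simp; ring
    linarith
  obtain ⟨x, hx1, hx2, hx3⟩ := up n M H ((1 + δ / 2) / L) (by positivity) hHM hkey
  have hM1 : (M : ℝ) + 1 ≤ n := by linarith
  have hM2 : M + 1 ≤ n := by exact_mod_cast hM1
  have hlp : Real.log ((x + 1 : ℕ) : ℝ) ≤ L + 1 := log_ub (by omega) (by omega) (by omega)
  have hlp0 : L ≤ Real.log ((x + 1 : ℕ) : ℝ) := by
    apply Real.log_le_log
    · exact_mod_cast (by omega : 0 < n)
    · exact_mod_cast (by omega : n ≤ x + 1)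
  have hHone : 1 ≤ H := by
    rw [hH, Nat.one_le_floor_iff]
    exact one_le_pow₀ (by linarith)
  refine ⟨x + 1, by omega, by omega, ?_, ?_⟩
  · have h3 := hx3 1 le_rfl hHone
    have h4 : 0 < (pr x 1 : ℝ) := by
      refine lt_of_lt_of_le ?_ h3
      positivity
    have h5 : 0 < pr x 1 := by exact_mod_cast h4
    unfold pr at h5
    rw [card_pos] at h5
    obtain ⟨u, hu⟩ := h5
    rw [mem_filter, mem_Ioc] at hu
    have : u = x + 1 := by omega
    rw [← this]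
    exact hu.2
  · intro h h3 h4
    have h5 : h ≤ H := by
      rw [hH]
      apply Nat.le_floor
      refine h4.trans ?_
      exact pow_le_pow_left₀ (by linarith) hlp _
    rw [pr_Ico]
    refine le_trans ?_ (hx3 h h3 h5)
    have h6 : (0 : ℝ) ≤ h := Nat.cast_nonneg _
    rw [div_mul_eq_mul_div]
    apply div_le_div₀ (by positivity) _ hL0 hlp0
    apply mul_le_mul_of_nonneg_right _ h6
    linarith

/-- a deficit in one window gives a persistent deficit -/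
theorem dfc (N : ℕ) {δ : ℝ} (hδ : 0 < δ) (hδ1 : δ ≤ 1) : ∃ n₀ : ℕ, ∀ n : ℕ, n₀ ≤ n →
    (win ((N + 2 : ℕ) : ℝ) n : ℝ) ≤ (1 - δ) * (Real.log n) ^ (N + 1) →
    ∃ x : ℕ, n ≤ x ∧ x ≤ n + ⌊(Real.log n) ^ (N + 2)⌋₊ ∧ ∀ h : ℕ, 1 ≤ h →
      (h : ℝ) ≤ (Real.log x) ^ N → (((Ioc x (x + h)).filter Nat.Prime).card : ℝ) ≤ (1 - δ / 4) * h / Real.log x := by
  obtain ⟨n₁, h1⟩ := pow_le_n (N + 2)
  obtain ⟨n₂, h2⟩ := logs (max 1 (2 ^ (N + 3) / δ + 1))
  refine ⟨max (max n₁ n₂) 3, fun n hn hw => ?_⟩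
  have k1 := h1 n (by omega)
  have k2 := h2 n (by omega)
  set L := Real.log n with hL
  have hL1 : 1 ≤ L := (le_max_left _ _).trans k2
  have hL2 : 2 ^ (N + 3) / δ + 1 ≤ L := (le_max_right _ _).trans k2
  have hL0 : 0 < L := by linarith
  have hLδ : 2 ^ (N + 3) < L * δ := by
    rw [← div_lt_iff₀ hδ]
    linarith
  have hLδ4 : 4 ≤ L * δ := by
    have : (4 : ℝ) ≤ 2 ^ (N + 3) := by
      calc (4 : ℝ) = 2 ^ 2 := by norm_num
        _ ≤ 2 ^ (N + 3) := pow_le_pow_right₀ (by norm_num) (by omega)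
    linarith
  rw [win_eq] at hw
  set M := ⌊L ^ (N + 2)⌋₊ with hM
  set H := ⌊(L + 1) ^ N⌋₊ with hH
  have hMu : (M : ℝ) ≤ L ^ (N + 2) := Nat.floor_le (by positivity)
  have hMl : L ^ (N + 2) < M + 1 := Nat.lt_floor_add_one _
  have hHu : (H : ℝ) ≤ (L + 1) ^ N := Nat.floor_le (by positivity)
  have hH2 : (L + 1) ^ N ≤ 2 ^ N * L ^ N := by
    rw [← mul_pow]
    exact pow_le_pow_left₀ (by positivity) (by linarith) _
  have hH3 : (L + 1) ^ N + 1 < δ / 2 * L ^ (N + 1) := by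
    have h3 : 0 < L ^ N := by positivity
    have h4 : (1 : ℝ) ≤ 2 ^ N * L ^ N := by
      have a1 : (1 : ℝ) ≤ 2 ^ N := one_le_pow₀ (by norm_num)
      have a2 : (1 : ℝ) ≤ L ^ N := one_le_pow₀ hL1
      nlinarith
    have h5 : (2 : ℝ) ^ (N + 3) = 8 * 2 ^ N := by ring
    rw [h5] at hLδ
    rw [pow_succ L N]
    nlinarith
  have hHM : H ≤ M := by
    by_contra hcon
    have h3 : (M : ℝ) + 1 ≤ H := by exact_mod_cast (not_le.1 hcon)
    have h8 : L ^ (N + 1) ≤ L ^ (N + 2) := pow_le_pow_right₀ hL1 (by omega)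
    have h7 : 0 < L ^ (N + 1) := by positivity
    nlinarith
  have hkey : (pr n M : ℝ) < (1 - δ / 2) / L * (M - H) := by
    refine lt_of_le_of_lt hw ?_
    have h3 : (1 - δ / 2) / L * (L ^ (N + 2) - (1 + H)) ≤ (1 - δ / 2) / L * (M - H) := by
      apply mul_le_mul_of_nonneg_left _ (div_nonneg (by linarith) hL0.le)
      linarith
    refine lt_of_lt_of_le ?_ h3
    have h4 : (1 - δ / 2) / L * (L ^ (N + 2) - (1 + H)) = (1 - δ / 2) * L ^ (N + 1) - (1 - δ / 2) * (1 + H) / L := by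
      field_simp
      ring
    rw [h4]
    have h5 : (1 - δ / 2) * (1 + H) / L < δ / 2 * L ^ (N + 1) := by
      have h6 : (1 - δ / 2) * (1 + (H : ℝ)) / L ≤ 1 + H := by
        rw [div_le_iff₀ hL0]
        have : (0 : ℝ) ≤ H := Nat.cast_nonneg _
        nlinarith
      linarith
    linarith
  obtain ⟨x, hx1, hx2, hx3⟩ := dn n M H ((1 - δ / 2) / L) (div_nonneg (by linarith) hL0.le) hHM hkey
  have hM1 : (M : ℝ) + 1 ≤ n := by linarith
  have hM2 : M + 1 ≤ n := by exact_mod_cast hM1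
  have hlp : Real.log (x : ℝ) ≤ L + 1 := log_ub (by omega) (by omega) (by omega)
  have hlp0 : L ≤ Real.log (x : ℝ) := by
    apply Real.log_le_log
    · exact_mod_cast (by omega : 0 < n)
    · exact_mod_cast (by omega : n ≤ x)
  refine ⟨x, by omega, by omega, ?_⟩
  intro h h3 h4
  have h5 : h ≤ H := by
    rw [hH]
    apply Nat.le_floor
    refine h4.trans ?_
    exact pow_le_pow_left₀ (by linarith) hlp _
  have h7 := hx3 h h3 h5
  unfold pr at h7
  refine h7.trans ?_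
  have h6 : (0 : ℝ) ≤ h := Nat.cast_nonneg _
  rw [div_mul_eq_mul_div, div_le_div_iff₀ hL0 (by linarith)]
  have h8 : (1 - δ / 2) * Real.log x ≤ (1 - δ / 4) * L := by
    calc (1 - δ / 2) * Real.log x ≤ (1 - δ / 2) * (L + 1) := mul_le_mul_of_nonneg_left hlp (by linarith)
      _ ≤ _ := by nlinarith
  nlinarith

end Pool.Agent.X26.MS
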