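import Mathlib
import Pool.Agent.X30.MaierI

/-!
# The rising sun lemma for the primes: deviations at all scales at once
-/

set_option autoImplicit false

namespace Pool.Agent.X26.MS

open Finset Filter Topology

/-- the number of the primes in `(n, n + h]` -/
def pr (n h : ℕ) : ℕ := ((Ioc n (n + h)).filter Nat.Prime).card

theorem pr_add (n a b : ℕ) : pr n (a + b) = pr n a + pr (n + a) b := by
  unfold pr
  rw [← card_union_of_disjoint]
  · congr 1
    rw [← filter_union]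
    congr 1
    ext u
    simp only [mem_union, mem_Ioc]
    omega
  · rw [Finset.disjoint_left]
    intro u hu hv
    rw [mem_filter, mem_Ioc] at hu hv
    omega

theorem pr_le (n h : ℕ) : pr n h ≤ h := by
  unfold pr
  refine (card_filter_le _ _).trans ?_
  rw [Nat.card_Ioc]
  omega

theorem pr_mono (n : ℕ) {a b : ℕ} (h : a ≤ b) : pr n a ≤ pr n b := by
  obtain ⟨c, rfl⟩ := Nat.exists_eq_add_of_le h
  rw [pr_add]
  omega

/-- the rising sun lemma -/
theorem rs (f : ℕ → ℝ) (a b H : ℕ) (hab : a ≤ b)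
    (h : ∀ x, a ≤ x → x ≤ b → ∃ k, 1 ≤ k ∧ k ≤ H ∧ f (x + k) < f x) : ∃ y, b < y ∧ y ≤ b + H ∧ f y ≤ f a := by
  classical
  set S := (Icc a (b + H)).filter (fun y => f y ≤ f a) with hS
  have hne : S.Nonempty := ⟨a, by rw [hS, mem_filter, mem_Icc]; exact ⟨⟨le_rfl, by omega⟩, le_rfl⟩⟩
  have hm := S.max'_mem hne
  set y := S.max' hne with hy
  rw [hS, mem_filter, mem_Icc] at hm
  refine ⟨y, ?_, hm.1.2, hm.2⟩
  by_contra hcon
  obtain ⟨k, hk1, hk2, hk3⟩ := h y hm.1.1 (by omega)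
  have h1 : y + k ∈ S := by
    rw [hS, mem_filter, mem_Icc]
    exact ⟨⟨by omega, by omega⟩, (hk3.le).trans hm.2⟩
  have h2 := S.le_max' _ h1
  omega

/-- too many primes at all scales -/
theorem up (n M H : ℕ) (s : ℝ) (hs : 0 ≤ s) (hHM : H ≤ M) (h : s * M + H < pr n M) :
    ∃ x, n ≤ x ∧ x ≤ n + (M - H) ∧ ∀ k, 1 ≤ k → k ≤ H → s * k ≤ pr x k := by
  by_contra hcon
  push Not at hcon
  obtain ⟨y, hy1, hy2, hy3⟩ := rs (fun t => (pr n (t - n) : ℝ) - s * ((t - n : ℕ) : ℝ)) n (n + (M - H)) H (by omega) (by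
    intro x hx1 hx2
    obtain ⟨k, hk1, hk2, hk3⟩ := hcon x hx1 hx2
    refine ⟨k, hk1, hk2, ?_⟩
    obtain ⟨z, rfl⟩ := Nat.exists_eq_add_of_le hx1
    have e1 : n + z + k - n = z + k := by omega
    have e2 : n + z - n = z := by omega
    simp only [e1, e2]
    rw [pr_add]
    push_cast
    linarith)
  simp only [Nat.sub_self] at hy3
  obtain ⟨z, rfl⟩ : ∃ z, y = n + z := ⟨y - n, by omega⟩
  have e2 : n + z - n = z := by omega
  rw [e2] at hy3
  have h0 : pr n 0 = 0 := by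
    unfold pr
    simp
  rw [h0] at hy3
  obtain ⟨w, rfl⟩ : ∃ w, M = z + w := ⟨M - z, by omega⟩
  rw [pr_add] at h
  have h1 := pr_le (n + z) w
  have h2 : w ≤ H := by omega
  have h3 : (pr (n + z) w : ℝ) ≤ H := by exact_mod_cast h1.trans h2
  push_cast at h hy3
  have h4 : 0 ≤ s * w := by positivity
  nlinarith

/-- too few primes at all scales -/
theorem dn (n M H : ℕ) (s : ℝ) (hs : 0 ≤ s) (hHM : H ≤ M) (h : (pr n M : ℝ) < s * (M - H)) :
    ∃ x, n ≤ x ∧ x ≤ n + (M - H) ∧ ∀ k, 1 ≤ k → k ≤ H → (pr x k : ℝ) ≤ s * k := by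
  by_contra hcon
  push Not at hcon
  obtain ⟨y, hy1, hy2, hy3⟩ := rs (fun t => s * ((t - n : ℕ) : ℝ) - (pr n (t - n) : ℝ)) n (n + (M - H)) H (by omega) (by
    intro x hx1 hx2
    obtain ⟨k, hk1, hk2, hk3⟩ := hcon x hx1 hx2
    refine ⟨k, hk1, hk2, ?_⟩
    obtain ⟨z, rfl⟩ := Nat.exists_eq_add_of_le hx1
    have e1 : n + z + k - n = z + k := by omega
    have e2 : n + z - n = z := by omega
    simp only [e1, e2]
    rw [pr_add]
    push_cast
    linarith)
  simp only [Nat.sub_self] at hy3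
  obtain ⟨z, rfl⟩ : ∃ z, y = n + z := ⟨y - n, by omega⟩
  have e2 : n + z - n = z := by omega
  rw [e2] at hy3
  have h0 : pr n 0 = 0 := by
    unfold pr
    simp
  rw [h0] at hy3
  have h1 := pr_mono n (show z ≤ M by omega)
  have h2 : (pr n z : ℝ) ≤ pr n M := by exact_mod_cast h1
  have h3 : (M : ℝ) - H ≤ z := by
    have : M - H < z := by omega
    have h5 : M < z + H := by omega
    have h6 : (M : ℝ) < z + H := by exact_mod_cast h5
    linarith
  have h4 : s * (M - H) ≤ s * z := mul_le_mul_of_nonneg_left h3 hs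
  push_cast at hy3
  linarith

end Pool.Agent.X26.MS
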